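import Pool.Agent.Lib.MP_39c2b7_co.Interfaces

/-!
Module MINCE: a minimal counterexample.
-/

set_option autoImplicit false

namespace StrongArb.H87

open Classical

/-- A graph with all edges inside `R` is acyclic if its restriction to `R` is. -/
theorem acyclic_of_induce {V : Type} {A : SimpleGraph V} {R : Set V}
    (hR : ∀ u v, A.Adj u v → u ∈ R ∧ v ∈ R) (h : (A.induce R).IsAcyclic) : A.IsAcyclic := by
  have key : ∀ (u v : V) (w : A.Walk u v), u ∈ R → ∀ x ∈ w.support, x ∈ R := by
    intro u v w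
    induction w with
    | nil =>
      intro hu x hx
      rw [SimpleGraph.Walk.support_nil, List.mem_singleton] at hx
      rw [hx]; exact hu
    | cons hadj p ih =>
      intro hu x hx
      rw [SimpleGraph.Walk.support_cons, List.mem_cons] at hx
      rcases hx with hx | hx
      · rw [hx]; exact hu
      · exact ih (hR _ _ hadj).2 x hx
  intro v c hc
  have hv : v ∈ R := by
    cases c with
    | nil => exact absurd rfl hc.ne_nil
    | cons hadj p => exact (hR _ _ hadj).1
  have hw := key v v c hv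
  apply h (c.induce R hw)
  have hinj : Function.Injective ((SimpleGraph.Embedding.induce (G := A) R).toHom) :=
    Subtype.val_injective
  rw [← SimpleGraph.Walk.isCycle_map_iff_of_injective hinj, SimpleGraph.Walk.map_induce]
  exact hc

/-- Good maps restrict. -/
theorem good_anti {V : Type} {G H : SimpleGraph V} (hle : G ≤ H) {p : V → Pt} (h : Good H p) :
    Good G p :=
  ⟨fun u v huv => h.proper u v (hle huv),
    fun s => (h.forest s).anti (show slopeGraph G p s ≤ slopeGraph H p s from
      fun _ _ hab => ⟨hle hab.1, hab.2⟩)⟩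

/-- Good maps extend by isolated vertices. -/
theorem good_extend {V : Type} {G : SimpleGraph V} {R : Set V}
    (hR : ∀ u v, G.Adj u v → u ∈ R ∧ v ∈ R) (h : ∃ p, Good (G.induce R) p) : ∃ p, Good G p := by
  obtain ⟨p, hp⟩ := h
  have hq : ∃ q : V → Pt, ∀ v (hv : v ∈ R), q v = p ⟨v, hv⟩ :=
    ⟨fun v => if hv : v ∈ R then p ⟨v, hv⟩ else (0, 0), fun v hv => dif_pos hv⟩
  obtain ⟨q, hq⟩ := hq
  refine ⟨q, ?_, ?_⟩
  · intro u v huv
    obtain ⟨hu, hv⟩ := hR u v huv
    rw [hq u hu, hq v hv]
    exact hp.proper _ _ huv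
  · intro s
    apply acyclic_of_induce (A := slopeGraph G q s) (R := R) (fun u v huv => hR u v huv.1)
    refine (hp.forest s).anti ?_
    rintro ⟨a, ha⟩ ⟨b, hb⟩ hab
    obtain ⟨h1, h2⟩ := hab
    refine ⟨h1, ?_⟩
    change form s (q a) = form s (q b) at h2
    rw [hq a ha, hq b hb] at h2
    exact h2

theorem conn_of_subsingleton {V : Type} (G : SimpleGraph V) (S : Set V) (a : V) (ha : a ∈ S)
    (h : ∀ x ∈ S, x = a) : (G.induce S).Connected := by
  have : Nonempty S := ⟨⟨a, ha⟩⟩
  have : Subsingleton S := ⟨fun x y => Subtype.ext ((h x.1 x.2).trans (h y.1 y.2).symm)⟩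
  exact ⟨SimpleGraph.Preconnected.of_subsingleton⟩

/-- Induced subgraphs are minors. -/
theorem minor_induce {V : Type} (G : SimpleGraph V) (A : Set V) :
    MinorMap G (G.induce A) (fun v => if h : v ∈ A then some (⟨v, h⟩ : A) else none) := by
  constructor
  · rintro ⟨a, ha⟩
    apply conn_of_subsingleton G _ a
    · simp [ha]
    · intro x hx
      simp only [Set.mem_ofPred_eq] at hx
      split_ifs at hx with h
      simp only [Option.some.injEq] at hx
      exact Subtype.ext_iff.1 hx
  · rintro ⟨a, ha⟩ ⟨b, hb⟩ hab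
    exact ⟨a, b, by simp [ha], by simp [hb], hab⟩

/-- Contractions are minors. -/
theorem minor_contract {V : Type} (G : SimpleGraph V) (φ : V → V)
    (hφ : ∀ a ∈ Set.range φ, FibreConn G φ a) :
    MinorMap G ((contract G φ).induce (Set.range φ))
      (fun v => some (⟨φ v, Set.mem_range_self v⟩ : Set.range φ)) := by
  constructor
  · rintro ⟨a, ha⟩
    have h := hφ a ha
    have e : {v | (some (⟨φ v, Set.mem_range_self v⟩ : Set.range φ)) = some ⟨a, ha⟩} =
        {v | φ v = a} := by
      ext v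
      simp
    rw [e]
    exact h
  · rintro ⟨a, ha⟩ ⟨b, hb⟩ hab
    obtain ⟨_, u, v, hu, hv, huv⟩ := (hab : (contract G φ).Adj a b)
    exact ⟨u, v, by simp [hu], by simp [hv], huv⟩

theorem minor_K5 {V : Type} (G : SimpleGraph V) (h : HasK5Minor G) :
    ∃ φ : V → Option (Fin 5), MinorMap G (⊤ : SimpleGraph (Fin 5)) φ := by
  obtain ⟨A, hA1, hA2, hA3⟩ := h
  refine ⟨fun v => if hv : ∃ i, v ∈ A i then some hv.choose else none, ?_⟩
  have hkey : ∀ i v, (if hv : ∃ i, v ∈ A i then some hv.choose else none) = some i ↔ v ∈ A i := by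
    intro i v
    constructor
    · intro h
      split_ifs at h with hv
      simp only [Option.some.injEq] at h
      have := hv.choose_spec
      rwa [h] at this
    · intro h
      have hv : ∃ i, v ∈ A i := ⟨i, h⟩
      rw [dif_pos hv]
      congr 1
      by_contra hne
      exact Set.disjoint_left.1 (hA2 _ _ hne) hv.choose_spec h
  constructor
  · intro i
    have e : {v | (if hv : ∃ i, v ∈ A i then some hv.choose else none) = some i} = A i := by
      ext v
      exact hkey i v
    rw [e]
    exact hA1 i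
  · intro i j hij
    obtain ⟨u, hu, v, hv, huv⟩ := hA3 i j (by simpa using hij)
    exact ⟨u, v, (hkey i u).2 hu, (hkey j v).2 hv, huv⟩

theorem K5_edges : (⊤ : SimpleGraph (Fin 5)).edgeSet.ncard = 10 := by
  rw [← SimpleGraph.coe_edgeFinset, Set.ncard_coe_finset, SimpleGraph.card_edgeFinset_top_eq_card_choose_two]
  rfl

/-- The key step: no clique with at most three vertices separates a minimal graph. -/
theorem clique_cut (hglue : GlueStatement) {V : Type} [Finite V] {G : SimpleGraph V}
    (hbad : ¬ ∃ p, Good G p)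
    (hsub : ∀ A : Set V, A ≠ Set.univ → ∃ p, Good (G.induce A) p)
    (S : Set V) (hS : S.ncard ≤ 3) (hcl : G.IsClique S) : (G.induce Sᶜ).Preconnected := by
  intro a b
  by_contra hab
  apply hbad
  let R : Set V := {x | ∃ hx : x ∈ Sᶜ, (G.induce Sᶜ).Reachable a ⟨x, hx⟩}
  have hRS : ∀ x ∈ R, x ∉ S := fun x hx => hx.1
  have haR : a.1 ∈ R := ⟨a.2, SimpleGraph.Reachable.refl _⟩
  have hbR : b.1 ∉ R := fun h => hab h.2
  have hinter : (S ∪ R) ∩ Rᶜ = S := by
    ext x
    constructor
    · rintro ⟨h1 | h1, h2⟩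
      · exact h1
      · exact absurd h1 h2
    · intro h
      exact ⟨Or.inl h, fun hR => hRS x hR h⟩
  apply hglue V G (S ∪ R) Rᶜ
  · ext x
    simp only [Set.mem_union, Set.mem_compl_iff, Set.mem_univ, iff_true]
    tauto
  · intro x hx y hy hxy
    have hxR : x ∈ R := not_not.1 hx.2
    have hyS : y ∉ S := fun h => hy.2 (Or.inl h)
    have hyR : y ∉ R := hy.1
    obtain ⟨hxS, hreach⟩ := hxR
    apply hyR
    refine ⟨hyS, hreach.trans (SimpleGraph.Adj.reachable ?_)⟩
    exact hxy
  · rw [hinter]; exact hcl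
  · rw [hinter]; exact hS
  · apply hsub
    intro h
    have : b.1 ∈ S ∪ R := by rw [h]; trivial
    rcases this with h | h
    · exact b.2 h
    · exact hbR h
  · apply hsub
    intro h
    have : a.1 ∈ Rᶜ := by rw [h]; trivial
    exact this haR

/-- Module MINCE. -/
theorem mince (hminor : DualMinorStatement) (hbound : DualBoundStatement) (hlink : LinkStatement)
    (hglue : GlueStatement) (hsmall : SmallStatement) : MinCEStatement := by
  intro hex
  have hex' : ∃ n : ℕ, ∃ (V : Type) (_ : Finite V) (G : SimpleGraph V),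
      (HasDual G ∧ ¬ ∃ p, Good G p) ∧ Nat.card V = n := by
    obtain ⟨V, hV, G, hG⟩ := hex
    exact ⟨Nat.card V, V, hV, G, hG, rfl⟩
  obtain ⟨V, hV, G0, hG0, hn⟩ := Nat.find_spec hex'
  have hmin : ∀ (V' : Type) [Finite V'] (H : SimpleGraph V'), HasDual H →
      Nat.card V' < Nat.card V → ∃ p, Good H p := by
    intro V' _ H hH hcard
    by_contra hbad
    rw [hn] at hcard
    exact Nat.find_min hex' hcard ⟨V', inferInstance, H, ⟨hH, hbad⟩, rfl⟩
  obtain ⟨G, hG0G, hGmax⟩ := Set.Finite.exists_le_maximal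
    (s := {G : SimpleGraph V | HasDual G ∧ ¬ ∃ p, Good G p}) (Set.toFinite _) hG0
  obtain ⟨hdual, hbad⟩ := hGmax.prop
  -- smaller pieces
  have hsub : ∀ A : Set V, A ≠ Set.univ → ∃ p, Good (G.induce A) p := by
    intro A hA
    apply hmin
    · exact hminor V A G (G.induce A) _ hdual (minor_induce G A)
    · rw [Nat.card_coe_set_eq, ← Set.ncard_univ]
      exact Set.ncard_lt_ncard (Set.ssubset_univ_iff.2 hA) (Set.toFinite _)
  have hcut : ∀ S : Set V, S.ncard ≤ 3 → G.IsClique S → (G.induce Sᶜ).Preconnected :=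
    fun S h1 h2 => clique_cut hglue hbad hsub S h1 h2
  have hfive : 5 ≤ Nat.card V := by
    by_contra h
    exact hbad (hsmall V G (by omega))
  have hconn : G.Connected := by
    have h1 := hcut ∅ (by simp) (by simp [SimpleGraph.IsClique])
    have : Nonempty V := (Nat.card_pos_iff.1 (by omega)).1
    refine ⟨fun u v => ?_⟩
    have h2 := h1 ⟨u, by simp⟩ ⟨v, by simp⟩
    exact h2.map (SimpleGraph.Embedding.induce (G := G) (∅ᶜ : Set V)).toHom
  have hbd : ∀ {V' : Type} [Finite V'] (H : SimpleGraph V') (φ : V → Option V'),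
      MinorMap G H φ → H.Connected → 3 ≤ Nat.card V' → H.edgeSet.ncard + 6 ≤ 3 * Nat.card V' :=
    fun {V'} _ H φ hφ hc h3 => hbound V' H (hminor V V' G H φ hdual hφ) hc h3
  have hK5 : ¬ HasK5Minor G := by
    intro h
    obtain ⟨φ, hφ⟩ := minor_K5 G h
    have := hbd (⊤ : SimpleGraph (Fin 5)) φ hφ SimpleGraph.connected_top (by simp)
    rw [K5_edges] at this
    simp at this
  have hedge : ∀ x y, x ≠ y → ¬ G.Adj x y →
      ¬ HasDual (G ⊔ SimpleGraph.fromEdgeSet {s(x, y)}) := by
    intro x y hxy hadj hd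
    have h1 : HasDual (G ⊔ SimpleGraph.fromEdgeSet {s(x, y)}) ∧
        ¬ ∃ p, Good (G ⊔ SimpleGraph.fromEdgeSet {s(x, y)}) p :=
      ⟨hd, fun ⟨p, hp⟩ => hbad ⟨p, good_anti le_sup_left hp⟩⟩
    have h2 := hGmax.le_of_ge h1 le_sup_left
    apply hadj
    apply h2
    right
    simp [hxy]
  refine ⟨V, G, hV, hconn, hlink V G hconn hfive hdual hedge hcut hK5, hbd, hbad, ?_⟩
  intro φ hφ hfib
  apply good_extend (R := Set.range φ)
  · rintro u v ⟨_, a, b, ha, hb, _⟩
    exact ⟨⟨a, ha⟩, ⟨b, hb⟩⟩
  · apply hmin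
    · exact hminor V _ G _ _ hdual (minor_contract G φ hfib)
    · have hsurj : ¬ Function.Surjective φ := fun h =>
        hφ (Finite.injective_iff_surjective.2 h)
      rw [Nat.card_coe_set_eq, ← Set.ncard_univ]
      refine Set.ncard_lt_ncard (Set.ssubset_univ_iff.2 ?_) (Set.toFinite _)
      intro h
      exact hsurj (Set.range_eq_univ.1 h)

end StrongArb.H87
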